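import Pool.Agent.H98.RFZ.Targets

/-!
# `mK` is decreasing and bounds `mag` (row MON of rfz_modules)
-/

set_option autoImplicit false

open MeasureTheory ProbabilityTheory

namespace Pool.Agent.H68.RFZ

open Pool.Agent.H98.RFC Pool.Agent.H98.RFZ

theorem gam_prob : IsProbabilityMeasure gam := by
  unfold gam
  infer_instance

theorem pf_MON (hDM : Z_DM) (hMAG : Z_MAG) (_hMEA : Z_MEA) (hRCT : P_RCT) : P_MON := by
  intro R J hJ ε hε p K w hp hK hw
  have hprob := gam_prob
  obtain ⟨hmem, hmono, hbox, -⟩ := hRCT p K w hp hK hw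
  have h0 : (0 : Site) ∈ rect p K w := by
    rw [hmem]
    have h1 : fdet p 0 = 0 := by
      unfold fdet
      simp
    have h2 : gdot p 0 = 0 := by
      unfold gdot
      simp
    have h3 : 0 ≤ nrm p := Real.sqrt_nonneg _
    rw [h1, h2]
    simp only [Int.cast_zero, abs_zero]
    constructor
    · positivity
    · have : 0 ≤ K := by linarith
      positivity
  have key : ∀ Λ : Finset Site, rect p K w ⊆ Λ →
      (gam {η | (0 : Site) ∈ Ds R J (fun x => ε * η x) Λ}).toReal ≤ mK R J ε p K w := by
    intro Λ hΛ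
    unfold mK
    refine ENNReal.toReal_mono (measure_ne_top _ _) (measure_mono ?_)
    intro η hη
    have h1 := hDM R J hJ (fun x => ε * η x) (rect p K w) Λ hΛ
    exact h1 (Finset.mem_inter.2 ⟨hη, h0⟩)
  refine ⟨ENNReal.toReal_nonneg, ?_, ?_, ?_⟩
  · unfold mK
    exact ENNReal.toReal_le_of_le_ofReal zero_le_one (by simpa using prob_le_one)
  · intro w' hw'
    exact key _ (hmono w' hw')
  · intro L hL
    rw [hMAG R J hJ ε hε L]
    exact key _ (hbox L hL)

end Pool.Agent.H68.RFZ
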