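import Pool.Agent.H98.RFZ.Targets2

/-!
# Choice of parameters (row PAR of rfz_modules)
-/

set_option autoImplicit false

open MeasureTheory ProbabilityTheory Filter Topology

namespace Pool.Agent.H68.RFZ

open Pool.Agent.H98.RFC Pool.Agent.H98.RFZ

theorem pf_PAR : B_PAR := by
  intro α β δ G M K' hα hαβ hδ hδ1 hG
  have hβ : 0 < β := lt_of_lt_of_le hα hαβ
  have hG0 : 0 < G := by linarith
  set r : ℝ := 1 - δ with hr
  have hr0 : 0 ≤ r := by linarith
  have hr1 : r < 1 := by linarith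
  set T : ℝ := (α / (200 * β)) ^ 2 / (8 * G) / (10 ^ 6 * (β / α)) with hT
  have hT0 : 0 < T := by positivity
  set D : ℕ := M + 2 * K' + 10 with hD
  set S : ℝ := ((D + (K' + 100) : ℕ) : ℝ) with hS
  have hS0 : 0 < S := by
    rw [hS]
    positivity
  have hε : 0 < T ^ 4 / (2 * 20 ^ 4 * S ^ 12) := by positivity
  have hlim := tendsto_pow_const_mul_const_pow_of_lt_one 12 hr0 hr1
  obtain ⟨n, hn, hn1⟩ := ((hlim.eventually (gt_mem_nhds hε)).and (eventually_ge_atTop 1)).exists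
  set A : ℕ := n * D + (K' + 100) with hA
  have hA8 : 100 ≤ A := by omega
  have hAR : (100 : ℝ) ≤ (A : ℝ) := by exact_mod_cast hA8
  have hA0 : (0 : ℝ) < (A : ℝ) := by linarith
  have hAS : (A : ℝ) ≤ n * S := by
    have h1 : A ≤ n * (D + (K' + 100)) := by
      have h2 : n * (D + (K' + 100)) = n * D + n * (K' + 100) := Nat.mul_add _ _ _
      have h3 : K' + 100 ≤ n * (K' + 100) := Nat.le_mul_of_pos_left _ hn1
      omega
    rw [hS]
    exact_mod_cast h1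
  refine ⟨(α / (200 * A * β)) ^ 2, A, n, by positivity, ?_, by omega, le_rfl, by omega, ?_⟩
  · have h1 : α / (200 * A * β) ≤ 1 / 200 := by
      rw [div_le_div_iff₀ (by positivity) (by norm_num)]
      nlinarith
    have h2 : (α / (200 * A * β)) ^ 2 ≤ (1 / 200) ^ 2 := pow_le_pow_left₀ (by positivity) h1 2
    norm_num at h2 ⊢
    linarith
  · have e1 : (α / (200 * A * β)) ^ 2 / (8 * G) / (10 ^ 6 * (β / α)) = T / (A : ℝ) ^ 2 := by
      rw [hT]
      field_simp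
    rw [e1]
    have h1 : (A : ℝ) ^ 12 * r ^ n ≤ T ^ 4 / (2 * 20 ^ 4) := by
      calc (A : ℝ) ^ 12 * r ^ n ≤ (n * S) ^ 12 * r ^ n :=
            mul_le_mul_of_nonneg_right (pow_le_pow_left₀ hA0.le hAS 12) (by positivity)
        _ = ((n : ℝ) ^ 12 * r ^ n) * S ^ 12 := by ring
        _ ≤ (T ^ 4 / (2 * 20 ^ 4 * S ^ 12)) * S ^ 12 :=
            mul_le_mul_of_nonneg_right hn.le (by positivity)
        _ = T ^ 4 / (2 * 20 ^ 4) := by
            field_simp
    have e2 : 1 / 2 * (T / (A : ℝ) ^ 2) ^ 4 = (T ^ 4 / (2 * 20 ^ 4)) * 20 ^ 4 / (A : ℝ) ^ 8 := by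
      field_simp
    rw [e2, le_div_iff₀ (by positivity)]
    calc (20 * (A : ℝ)) ^ 4 * r ^ n * (A : ℝ) ^ 8 = ((A : ℝ) ^ 12 * r ^ n) * 20 ^ 4 := by ring
      _ ≤ (T ^ 4 / (2 * 20 ^ 4)) * 20 ^ 4 := mul_le_mul_of_nonneg_right h1 (by positivity)

end Pool.Agent.H68.RFZ
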